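import Mathlib

/-!
# Setwise convergence of shifts does not imply total variation convergence

The state space is `ℤ → Bool`, and `X_k = S^k X_0` where `S` is the two sided shift and `X_0` has
the law of fair coin tosses conditioned on the coordinate `0` being `true`.
-/

open MeasureTheory Filter Topology Set
open scoped ENNReal

namespace Pool.Agent.Results.MP_a1f67d_pr.SetwiseNotTV

/-- The fair coin. -/
noncomputable def coin : Measure Bool := (PMF.uniformOfFintype Bool).toMeasure

instance : IsProbabilityMeasure coin := by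
  unfold coin
  infer_instance

theorem coin_true : coin {true} = 1 / 2 := by
  unfold coin
  rw [PMF.toMeasure_apply_singleton _ _ (measurableSet_singleton _)]
  simp

/-- Two sided fair coin tosses. -/
noncomputable def nu : Measure (ℤ → Bool) := Measure.infinitePi fun _ : ℤ => coin

instance : IsProbabilityMeasure nu := by
  unfold nu
  infer_instance

/-- The shift. -/
def S (n : ℤ) (ω : ℤ → Bool) : ℤ → Bool := fun i => ω (i + n)

theorem measurable_S (n : ℤ) : Measurable (S n) := by
  unfold S
  exact measurable_pi_lambda _ fun i => measurable_pi_apply _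

theorem map_S (n : ℤ) : nu.map (S n) = nu := by
  unfold nu
  exact Measure.map_infinitePi_infinitePi_of_inj (P := fun _ : ℤ => coin)
    (f := fun i : ℤ => i + n) (add_left_injective n)

/-- The event that the coordinate `-n` is `true`. -/
def C (n : ℕ) : Set (ℤ → Bool) := {ω | ω (-(n : ℤ)) = true}

theorem measurable_C (n : ℕ) : MeasurableSet (C n) := by
  have : C n = (fun ω : ℤ → Bool => ω (-(n : ℤ))) ⁻¹' {true} := rfl
  rw [this]
  exact (measurable_pi_apply _) (measurableSet_singleton _)

theorem nu_C (n : ℕ) : nu (C n) = 1 / 2 := by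
  have : C n = (fun ω : ℤ → Bool => ω (-(n : ℤ))) ⁻¹' {true} := rfl
  rw [this, ← Measure.map_apply (measurable_pi_apply _) (measurableSet_singleton _)]
  unfold nu
  rw [Measure.infinitePi_map_eval, coin_true]

theorem nu_real_C (n : ℕ) : nu.real (C n) = 1 / 2 := by
  rw [measureReal_def, nu_C]
  simp

theorem real_iUnion (f : ℕ → Set (ℤ → Bool)) (hd : Pairwise (Function.onFun Disjoint f))
    (hf : ∀ i, MeasurableSet (f i)) : nu.real (⋃ i, f i) = ∑' i, nu.real (f i) := by
  rw [measureReal_def, measure_iUnion hd hf, ENNReal.tsum_toReal_eq]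
  · rfl
  · exact fun i => measure_ne_top _ _

/-- Asymptotic independence. -/
theorem mixing (B : Set (ℤ → Bool)) (hB : MeasurableSet B) :
    Tendsto (fun n : ℕ => nu.real (B ∩ C n)) atTop (𝓝 (nu.real B / 2)) := by
  classical
  refine MeasurableSpace.induction_on_inter
    (C := fun B _ => Tendsto (fun n : ℕ => nu.real (B ∩ C n)) atTop (𝓝 (nu.real B / 2)))
    (generateFrom_squareCylinders (α := fun _ : ℤ => Bool)).symm
    (isPiSystem_squareCylinders (fun _ => MeasurableSpace.isPiSystem_measurableSet) (by simp))
    ?_ ?_ ?_ ?_ B hB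
  · simp
  · rintro _ ⟨s, T, hT, rfl⟩
    have hT' : ∀ i, MeasurableSet (T i) := fun i => hT i (mem_univ i)
    have hev : ∀ᶠ n : ℕ in atTop, (-(n : ℤ)) ∉ s := by
      rw [← Nat.cofinite_eq_atTop]
      have hinj : Function.Injective (fun n : ℕ => -(n : ℤ)) := by
        intro a b hab
        simpa using hab
      have := hinj.tendsto_cofinite.eventually (s.finite_toSet.compl_mem_cofinite)
      simpa using this
    refine Tendsto.congr' ?_ tendsto_const_nhds
    filter_upwards [hev] with n hn
    have hset : (Set.pi (s : Set ℤ) T) ∩ C n =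
        Set.pi ((insert (-(n : ℤ)) s : Finset ℤ) : Set ℤ)
          (Function.update T (-(n : ℤ)) {true}) := by
      ext ω
      simp only [mem_inter_iff, Set.mem_pi, Finset.mem_coe, Finset.mem_insert, C, mem_ofPred_eq]
      constructor
      · rintro ⟨h1, h2⟩ i hi
        rcases hi with rfl | hi
        · simpa using h2
        · have : i ≠ -(n : ℤ) := fun h => hn (h ▸ hi)
          rw [Function.update_of_ne this]
          exact h1 i hi
      · intro h
        refine ⟨fun i hi => ?_, ?_⟩
        · have : i ≠ -(n : ℤ) := fun h => hn (h ▸ hi)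
          have h1 := h i (Or.inr hi)
          rwa [Function.update_of_ne this] at h1
        · simpa using h _ (Or.inl rfl)
    have hup : ∀ i, MeasurableSet (Function.update T (-(n : ℤ)) {true} i) := by
      intro i
      by_cases h : i = -(n : ℤ)
      · subst h
        simp
      · rw [Function.update_of_ne h]
        exact hT' i
    have h1 : nu ((Set.pi (s : Set ℤ) T) ∩ C n) = (1 / 2) * nu (Set.pi (s : Set ℤ) T) := by
      rw [hset]
      unfold nu
      rw [Measure.infinitePi_pi _ (fun i _ => hup i), Measure.infinitePi_pi _ (fun i _ => hT' i),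
        Finset.prod_insert hn, Function.update_self, coin_true]
      congr 1
      refine Finset.prod_congr rfl fun i hi => ?_
      have : i ≠ -(n : ℤ) := fun h => hn (h ▸ hi)
      rw [Function.update_of_ne this]
    rw [measureReal_def, measureReal_def, h1, ENNReal.toReal_mul]
    simp
    ring
  · intro t ht h
    have h1 : ∀ n, nu.real (tᶜ ∩ C n) = 1 / 2 - nu.real (t ∩ C n) := by
      intro n
      have h2 := measureReal_inter_add_sdiff₀ (μ := nu) (s := C n) (t := t) ht.nullMeasurableSet
      rw [nu_real_C] at h2
      have h3 : tᶜ ∩ C n = C n \ t := by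
        ext ω
        simp [and_comm]
      have h4 : t ∩ C n = C n ∩ t := inter_comm _ _
      rw [h3, h4]
      linarith
    simp_rw [h1]
    have h2 : nu.real tᶜ / 2 = 1 / 2 - nu.real t / 2 := by
      rw [probReal_compl_eq_one_sub ht]
      ring
    rw [h2]
    exact tendsto_const_nhds.sub h
  · intro f hd hf h
    have h1 : ∀ n, nu.real ((⋃ i, f i) ∩ C n) = ∑' i, nu.real (f i ∩ C n) := by
      intro n
      rw [iUnion_inter, real_iUnion]
      · intro i j hij
        exact (hd hij).mono inter_subset_left inter_subset_left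
      · exact fun i => (hf i).inter (measurable_C n)
    have h2 : nu.real (⋃ i, f i) / 2 = ∑' i, nu.real (f i) / 2 := by
      rw [real_iUnion f hd hf, tsum_div_const]
    simp_rw [h1]
    rw [h2]
    have hsum : Summable fun i => nu.real (f i) := by
      have h3 : ∑' i, nu (f i) ≠ ∞ := by
        rw [← measure_iUnion hd hf]
        exact measure_ne_top _ _
      exact ENNReal.summable_toReal h3
    refine tendsto_tsum_of_dominated_convergence hsum h ?_
    refine Eventually.of_forall fun n i => ?_
    rw [Real.norm_eq_abs, abs_of_nonneg measureReal_nonneg]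
    exact measureReal_mono inter_subset_left

/-- The law of the process `X`: fair coin tosses conditioned on the coordinate `0`. -/
noncomputable def mu : Measure (ℤ → Bool) := ProbabilityTheory.cond nu (C 0)

instance : IsProbabilityMeasure mu := by
  unfold mu
  refine ProbabilityTheory.cond_isProbabilityMeasure ?_
  rw [nu_C]
  simp

theorem mu_real (B : Set (ℤ → Bool)) : mu.real B = 2 * nu.real (B ∩ C 0) := by
  unfold mu
  rw [measureReal_def, ProbabilityTheory.cond_apply (measurable_C 0), ENNReal.toReal_mul,
    ENNReal.toReal_inv, nu_C, inter_comm, measureReal_def]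
  norm_num

theorem mu_shift (B : Set (ℤ → Bool)) (hB : MeasurableSet B) (n : ℕ) :
    mu.real (S n ⁻¹' B) = 2 * nu.real (B ∩ C n) := by
  rw [mu_real]
  congr 1
  have h1 : S n ⁻¹' B ∩ C 0 = S n ⁻¹' (B ∩ C n) := by
    ext ω
    simp [C, S]
  rw [h1, measureReal_def, measureReal_def,
    ← Measure.map_apply (measurable_S n) (hB.inter (measurable_C n)), map_S]

/-- The path map. -/
def path (k : ℕ) (ω : ℤ → Bool) : ℤ → Bool := S k ω

theorem measurable_path : Measurable (fun ω : ℤ → Bool => fun k : ℕ => path k ω) :=
  measurable_pi_lambda _ fun k => measurable_S k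

theorem path_add (n k : ℕ) (ω : ℤ → Bool) : path (n + k) ω = path k (S n ω) := by
  funext i
  simp only [path, S]
  congr 1
  push_cast
  ring

/-- Setwise convergence of the shifts of a process does not imply convergence in total
variation. -/
theorem result : ∃ (E Ω Ω' : Type) (_ : MeasurableSpace E) (_ : MeasurableSpace Ω)
    (_ : MeasurableSpace Ω') (P : Measure Ω) (P' : Measure Ω') (_ : IsProbabilityMeasure P)
    (_ : IsProbabilityMeasure P') (X : ℕ → Ω → E) (X' : ℕ → Ω' → E),
    (∀ k, Measurable (X k)) ∧ (∀ k, Measurable (X' k)) ∧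
    (∀ A : Set (ℕ → E), MeasurableSet A →
      Tendsto (fun n : ℕ => P.real {ω | (fun k => X (n + k) ω) ∈ A}) atTop
        (𝓝 (P'.real {ω | (fun k => X' k ω) ∈ A}))) ∧
    ¬ Tendsto (fun n : ℕ => ⨆ A : {A : Set (ℕ → E) // MeasurableSet A},
        |P.real {ω | (fun k => X (n + k) ω) ∈ A.1} - P'.real {ω | (fun k => X' k ω) ∈ A.1}|)
      atTop (𝓝 0) := by
  refine ⟨ℤ → Bool, ℤ → Bool, ℤ → Bool, inferInstance, inferInstance, inferInstance, mu, nu,
    inferInstance, inferInstance, path, path, fun k => measurable_S k, fun k => measurable_S k,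
    ?_, ?_⟩
  · intro A hA
    have hB : MeasurableSet ((fun ω : ℤ → Bool => fun k : ℕ => path k ω) ⁻¹' A) :=
      measurable_path hA
    have h1 : ∀ n : ℕ, mu.real {ω | (fun k => path (n + k) ω) ∈ A} =
        2 * nu.real (((fun ω : ℤ → Bool => fun k : ℕ => path k ω) ⁻¹' A) ∩ C n) := by
      intro n
      rw [← mu_shift _ hB n]
      congr 1
      ext ω
      simp only [mem_ofPred_eq, mem_preimage]
      have : (fun k => path (n + k) ω) = fun k => path k (S n ω) := by
        funext k
        exact path_add n k ω
      rw [this]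
    simp_rw [h1]
    have h2 := (mixing _ hB).const_mul 2
    convert h2 using 2
    have : {ω : ℤ → Bool | (fun k => path k ω) ∈ A} =
      (fun ω : ℤ → Bool => fun k : ℕ => path k ω) ⁻¹' A := rfl
    rw [this]
    ring
  · intro h
    have hlow : ∀ n : ℕ, 1 / 2 ≤ ⨆ A : {A : Set (ℕ → ℤ → Bool) // MeasurableSet A},
        |mu.real {ω | (fun k => path (n + k) ω) ∈ A.1} -
          nu.real {ω | (fun k => path k ω) ∈ A.1}| := by
      intro n
      have hbdd : BddAbove (Set.range fun A : {A : Set (ℕ → ℤ → Bool) // MeasurableSet A} =>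
          |mu.real {ω | (fun k => path (n + k) ω) ∈ A.1} -
            nu.real {ω | (fun k => path k ω) ∈ A.1}|) := by
        refine ⟨1, ?_⟩
        rintro _ ⟨A, rfl⟩
        have a1 := measureReal_nonneg (μ := mu) (s := {ω | (fun k => path (n + k) ω) ∈ A.1})
        have a2 := measureReal_nonneg (μ := nu) (s := {ω | (fun k => path k ω) ∈ A.1})
        have a3 : mu.real {ω | (fun k => path (n + k) ω) ∈ A.1} ≤ 1 := measureReal_le_one
        have a4 : nu.real {ω | (fun k => path k ω) ∈ A.1} ≤ 1 := measureReal_le_one
        exact abs_le.mpr ⟨by linarith, by linarith⟩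
      have hA : MeasurableSet {x : ℕ → ℤ → Bool | x 0 (-(n : ℤ)) = true} := by
        have : {x : ℕ → ℤ → Bool | x 0 (-(n : ℤ)) = true} =
          (fun x : ℕ → ℤ → Bool => x 0 (-(n : ℤ))) ⁻¹' {true} := rfl
        rw [this]
        exact ((measurable_pi_apply (-(n : ℤ))).comp (measurable_pi_apply 0))
          (measurableSet_singleton _)
      refine le_trans ?_ (le_ciSup hbdd ⟨_, hA⟩)
      have h1 : {ω : ℤ → Bool | (fun k => path (n + k) ω) ∈
          {x : ℕ → ℤ → Bool | x 0 (-(n : ℤ)) = true}} = C 0 := by
        ext ω
        simp [path, S, C]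
      have h2 : {ω : ℤ → Bool | (fun k => path k ω) ∈
          {x : ℕ → ℤ → Bool | x 0 (-(n : ℤ)) = true}} = C n := by
        ext ω
        simp [path, S, C]
      simp only [h1, h2]
      rw [mu_real, inter_self, nu_real_C, nu_real_C]
      norm_num
    have := ge_of_tendsto' h hlow
    norm_num at this

end Pool.Agent.Results.MP_a1f67d_pr.SetwiseNotTV
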